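import Mathlib

/-!
# A regular self-complementary graph on nine vertices with a vertex on exactly `k(k-1) = 2` triangles
which is fixed by no isomorphism-permutation
-/

set_option autoImplicit false

namespace Pool.Agent.Results.MP_b6be33_co.NineVertices

/-- An isomorphism-permutation of `G`: a permutation `P` of the vertices such that, for all distinct
`u`, `v`, `uv` is an edge iff `P(u)P(v)` is not an edge. -/
def IsIsoPerm {V : Type} (G : SimpleGraph V) (P : Equiv.Perm V) : Prop :=
  ∀ u v : V, u ≠ v → (G.Adj u v ↔ ¬ G.Adj (P u) (P v))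

/-- `G` is self-complementary. -/
def IsSelfComplementary {V : Type} (G : SimpleGraph V) : Prop := Nonempty (G ≃g Gᶜ)

/-- The set `F(G)` of the vertices fixed by at least one isomorphism-permutation. -/
def F {V : Type} (G : SimpleGraph V) : Set V := {v | ∃ P : Equiv.Perm V, IsIsoPerm G P ∧ P v = v}

/-- the rows of the adjacency matrix, as numbers in base two -/
def row : Fin 9 → ℕ := ![340, 420, 147, 240, 45, 90, 297, 270, 195]

/-- the graph -/
def G9 : SimpleGraph (Fin 9) where
  Adj i j := (row i).testBit j.val = true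
  symm := by
    constructor
    decide +kernel
  loopless := by
    constructor
    decide +kernel

instance : DecidableRel G9.Adj := fun i j => inferInstanceAs (Decidable ((row i).testBit j.val = true))

/-- an isomorphism-permutation, with cycles `(0)(1 2 3 4)(5 6 7 8)` -/
def P9 : Fin 9 → Fin 9 := ![0, 2, 3, 4, 1, 6, 7, 8, 5]
/-- its inverse -/
def Q9 : Fin 9 → Fin 9 := ![0, 4, 1, 2, 3, 8, 5, 6, 7]

lemma selfCompl : IsSelfComplementary G9 := by
  refine ⟨⟨⟨P9, Q9, by decide +kernel, by decide +kernel⟩, ?_⟩⟩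
  intro a b
  rw [SimpleGraph.compl_adj]
  revert a b
  decide +kernel

lemma regular : G9.IsRegularOfDegree 4 := by
  intro v
  revert v
  decide +kernel

lemma triangles : ((G9.cliqueFinset 3).filter (fun t => (1 : Fin 9) ∈ t)).card = 2 := by
  decide +kernel

lemma not_mem : (1 : Fin 9) ∉ F G9 := by
  rintro ⟨P, hP, h1⟩
  -- 5 is a neighbour of 1 with no common neighbour with 1
  have hadj : G9.Adj 1 5 := by decide +kernel
  have hno : ∀ w, G9.Adj 1 w → ¬ G9.Adj 5 w := by decide +kernel
  have hnon : ∀ u, u ≠ 1 → ¬ G9.Adj 1 u → ∃ w, w ≠ 1 ∧ w ≠ u ∧ ¬ G9.Adj 1 w ∧ ¬ G9.Adj u w := by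
    decide +kernel
  have hu1 : P 5 ≠ 1 := by
    intro h
    have : P 5 = P 1 := by rw [h, h1]
    exact absurd (P.injective this) (by decide)
  have hu2 : ¬ G9.Adj 1 (P 5) := by
    have := (hP 1 5 (by decide)).1 hadj
    rwa [h1] at this
  obtain ⟨w, hw1, hwu, hw2, hw3⟩ := hnon (P 5) hu1 hu2
  obtain ⟨x, rfl⟩ := P.surjective w
  have hx1 : (1 : Fin 9) ≠ x := by
    intro h
    apply hw1
    rw [← h, h1]
  have hx2 : G9.Adj 1 x := by
    rw [hP 1 x hx1, h1]
    exact hw2
  have hx5 : (5 : Fin 9) ≠ x := by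
    intro h
    apply hwu
    rw [h]
  have := hno x hx2
  rw [hP 5 x hx5, not_not] at this
  exact hw3 this

/-- **Negative answer to Q1** (with `k = 2`). -/
theorem result : ∃ (k : ℕ) (G : SimpleGraph (Fin (4 * k + 1))) (_ : DecidableRel G.Adj)
    (v : Fin (4 * k + 1)),
    IsSelfComplementary G ∧ G.IsRegularOfDegree (2 * k) ∧
    ((G.cliqueFinset 3).filter (fun t => v ∈ t)).card = k * (k - 1) ∧
    v ∉ F G :=
  ⟨2, G9, inferInstance, (1 : Fin 9), selfCompl, regular, triangles, not_mem⟩

end Pool.Agent.Results.MP_b6be33_co.NineVertices
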